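import Pool.Agent.H.MP_81a968_lc.A

set_option autoImplicit false

namespace Pool.Agent.Results.MP_81a968_lc.Yes

open Pool.Agent.Lib.helper21.PR Pool.Agent.H.MP_fa5791_lc Pool.Agent.H.MP_fa2eca_lc Filter Encodable Denumerable
open Nat.Partrec Nat.Partrec.Code Pool.Agent.Lib.helper21 Pool.Agent.Lib.helper21.ML Pool.Agent.H.MP_3eaa21_lc
open Pool.Agent.H.MP_81a968_lc

attribute [local irreducible] Primrec Computable

/-- initial segment of length `n` -/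
def seg (X : ℕ → Bool) (n : ℕ) : List Bool := (List.range n).map X

/-- characteristic function, used as an oracle -/
def chi (X : ℕ → Bool) : ℕ →. ℕ := fun n => Part.some (X n).toNat

def Gen1 (X : ℕ → Bool) : Prop := ∀ W : List Bool → Prop, REPred W →
  (∃ n, W (seg X n)) ∨ ∃ n, ∀ τ, seg X n <+: τ → ¬ W τ

def Sigma2 (W : List Bool → Prop) : Prop :=
  ∃ R : List Bool × ℕ × ℕ → Prop, ComputablePred R ∧ ∀ σ, W σ ↔ ∃ m, ∀ n, R (σ, m, n)

def WGen2 (X : ℕ → Bool) : Prop := ∀ W : List Bool → Prop, Sigma2 W →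
  (∀ σ, ∃ τ, σ <+: τ ∧ W τ) → ∃ n, W (seg X n)

/-- a structure: domain and atomic diagram (`rel i xs`: the `i`-th symbol of arity `xs.length` holds of `xs`) -/
structure Str where
  dom : ℕ → Bool
  rel : ℕ → List ℕ → Bool

def Str.Comp (A : Str) : Prop := Computable A.dom ∧ Computable₂ A.rel

def Iso (A B : Str) (f : ℕ → ℕ) : Prop := Set.BijOn f {x | A.dom x = true} {x | B.dom x = true} ∧
  ∀ i xs, (∀ x ∈ xs, A.dom x = true) → A.rel i xs = B.rel i (xs.map f)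

def LowIso (X : ℕ → Bool) : Prop := ∀ A B : Str, A.Comp → B.Comp →
  (∃ f, Iso A B f ∧ TuringReducible (PFun.lift f) (chi X)) → ∃ f, Iso A B f ∧ Computable f

theorem func {β : Type} [Primcodable β] {Y : ℕ → Bool} {f : ℕ → β} (h : CI Y f) : ∃ W : (ℕ × β) × S → Prop,
    RE W ∧ (∀ a σ τ, σ <+: τ → W (a, σ) → W (a, τ)) ∧ (∀ n b m, W ((n, b), pre Y m) → f n = b) ∧
      ∀ n, ∀ᶠ m in atTop, W ((n, f n), pre Y m) := by
  have h0 := h.ri
  rw [RI] at h0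
  obtain ⟨W, h1, h2, h3⟩ := h0
  refine ⟨fun z => ∃ τ, τ <+: z.2 ∧ W (z.1, τ), RE.un (RE.re (by fun_prop)),
    fun a σ τ k ⟨ρ, k1, k2⟩ => ⟨ρ, k1.trans k, k2⟩, fun n b m ⟨ρ, k1, k2⟩ => h2 (n, b) ρ.length ?_,
    fun n => (h3 (n, f n) rfl).mono fun m k => ⟨_, List.prefix_rfl, k⟩⟩
  rwa [of_pre k1]

theorem gen : Gen1 G := fun _ h => (G_gen (RE.un h)).elim fun n k => k.imp (fun k => ⟨n, k⟩) fun k => ⟨n, k⟩

theorem pre_getD (Z : ℕ → Bool) {n i : ℕ} (h : i < n) : (pre Z n).getD i false = Z i := by simp [pre, h]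

theorem G_nc : ¬ CI O G := fun h => by
  obtain ⟨n, k | k⟩ := G_gen (W := fun σ => ∃ i, i < σ.length ∧ σ.getD i false ≠ G i)
    (ri_re (RI.un (by fun_prop)))
  · obtain ⟨i, k1, k2⟩ := k
    exact k2 (pre_getD _ (pre_len G n ▸ k1))
  · refine k (pre G n ++ [!G n]) (List.prefix_append _ _) ⟨n, by simp [pre_len], ?_⟩
    simp [pre_len]

theorem lowPath {f : ℕ → ℕ} (h : CI G f) {Q : ℕ × List ℕ → Prop} (hQ : RE Q)
    (h' : ∀ n, ∃ m, Q (n, (List.range m).map f)) :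
    ∃ g : ℕ → ℕ, Computable g ∧ ∀ n, ∃ m, Q (n, (List.range m).map g) := by
  obtain ⟨W, w1, w2, w3, w4⟩ := func h
  obtain ⟨k, c | c⟩ := G_gen (W := fun σ => ∃ n b b', b ≠ b' ∧ W ((n, b), σ) ∧ W ((n, b'), σ))
    (RE.un (RE.re (by fun_prop)))
  · obtain ⟨n, b, b', c1, c2, c3⟩ := c
    exact (c1 ((w3 _ _ _ c2).symm.trans (w3 _ _ _ c3))).elim
  obtain ⟨Z, z1, z2⟩ := G_low (U := fun z => pre G k <+: z.2 ∧ (∃ b, W ((z.1, b), z.2)) ∧
    ∃ l : List ℕ, (∀ i < l.length, W ((i, l.getD i 0), z.2)) ∧ Q (z.1, l)) (RE.un (RE.re (by fun_prop)))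
    (fun n σ τ e ⟨a1, ⟨b, a2⟩, l, a3, a4⟩ => ⟨a1.trans e, ⟨b, w2 _ _ _ e a2⟩, l, fun i hi => w2 _ _ _ e (a3 i hi), a4⟩)
    fun n => by
      obtain ⟨m, hm⟩ := h' n
      have h1 : ∀ᶠ s in atTop, ∀ i ∈ Set.Iio m, W ((i, f i), pre G s) :=
        (eventually_all_finite (Set.finite_Iio _)).2 fun i _ => w4 i
      obtain ⟨s, h2, h3, h4⟩ := (h1.and ((w4 n).and (eventually_ge_atTop k))).exists
      exact ⟨s, pre_pre _ h4, ⟨_, h3⟩, _, fun i hi => by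
        have : i < m := by simpa using hi
        simpa [this] using h2 i this, hm⟩
  have z3 : CI O Z := Computable.ci z1
  have w5 : RI O W := (i_re (r_pw w1)).un
  obtain ⟨g, g1, g2⟩ := RI.choice (Y := O) (R := fun n b => ∃ m, W ((n, b), pre Z m)) (by fun_prop)
    fun n => let ⟨m, _, ⟨b, a⟩, _⟩ := z2 n; ⟨b, m, a⟩
  refine ⟨g, ci_comput g1, fun n => ?_⟩
  obtain ⟨m, a1, -, l, a3, a4⟩ := z2 n
  suffices e : (List.range l.length).map g = l from ⟨l.length, e.symm ▸ a4⟩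
  refine (List.ext_getElem (by simp) fun i hi _ => ?_).symm
  obtain ⟨m', a5⟩ := g2 i
  by_contra e
  refine c (pre Z (m + m')) (a1.trans (pre_pre _ (by omega))) ⟨i, l.getD i 0, g i, ?_,
    w2 _ _ _ (pre_pre _ (by omega)) (a3 i hi), w2 _ _ _ (pre_pre _ (by omega)) a5⟩
  simpa [hi] using e

theorem low : LowIso G := fun A B ⟨a1, a2⟩ ⟨b1, b2⟩ ⟨f, ⟨f1, f2⟩, f3⟩ => by
  have a3 : CI O A.dom := Computable.ci a1
  have b3 : CI O B.dom := Computable.ci b1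
  have a4 : CI O fun z : ℕ × List ℕ => A.rel z.1 z.2 := Computable.ci a2
  have b4 : CI O fun z : ℕ × List ℕ => B.rel z.1 z.2 := Computable.ci b2
  obtain ⟨d, d1, d2⟩ : ∃ d : ℕ → ℕ × List ℕ, Primrec d ∧ ∀ x, d (encode x) = x :=
    ⟨fun n => (decode n).getD (0, []), by fun_prop, by simp⟩
  have e1 : ∀ (g : ℕ → ℕ) {m i : ℕ}, i < m → ((List.range m).map g).getD i 0 = g i := fun g m i h => by simp [h]
  have e2 : ∀ (g : ℕ → ℕ) {m : ℕ} {xs : List ℕ}, (∀ x ∈ xs, x < m) →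
      xs.map (fun x => ((List.range m).map g).getD x 0) = xs.map g := fun g m xs h =>
    List.map_congr_left fun x hx => e1 g (h x hx)
  have p1 : Primrec fun z : ℕ × List ℕ => (d z.1).2.map fun x => z.2.getD x 0 := by fun_prop
  have p2 : Primrec fun z : ℕ × List ℕ => cd (∀ x ∈ (d z.1).2, x < z.2.length) := by fun_prop
  have p3 := ci_prim (Y := O) p1
  have p4 := ci_prim (Y := O) p2
  obtain ⟨g, g1, g2⟩ := lowPath (CI.of_red f3) (Q := fun z => z.1 < z.2.length ∧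
    (A.dom z.1 = true → B.dom (z.2.getD z.1 0) = true) ∧
    (B.dom z.1 = false ∨ ∃ x, x < z.2.length ∧ A.dom x = true ∧ z.2.getD x 0 = z.1) ∧
    (∀ x < z.1, A.dom x = true → A.dom z.1 = true → z.2.getD x 0 ≠ z.2.getD z.1 0) ∧
    (∀ x ∈ (d z.1).2, x < z.2.length) ∧ ((∀ i < (d z.1).2.length, A.dom ((d z.1).2.getD i 0) = true) →
      A.rel (d z.1).1 (d z.1).2 = B.rel (d z.1).1 ((d z.1).2.map fun x => z.2.getD x 0)))
    (ri_re (RI.un (i_and (by fun_prop) (i_and (by fun_prop) (i_and (by fun_prop) (i_and (by fun_prop)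
      (i_and (i_ci p4) (by fun_prop)))))))) fun n => by
      obtain ⟨y, hy⟩ : ∃ y, B.dom n = true → A.dom y = true ∧ f y = n := by
        by_cases c : B.dom n = true
        · exact (f1.surjOn c).imp fun y k _ => k
        · exact ⟨0, fun k => (c k).elim⟩
      have h1 : ∀ x ∈ (d n).2, x < n + y + (d n).2.sum + 1 := fun x hx => by
        have := List.single_le_sum (by simp) _ hx
        omega
      refine ⟨n + y + (d n).2.sum + 1, by simp; omega, fun k => ?_, ?_, fun x hx k1 k2 => ?_, by simpa using h1,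
        fun k => ?_⟩
      · rw [e1 f (by omega)]
        exact f1.mapsTo k
      · by_cases c : B.dom n = true
        · exact .inr ⟨y, by simp; omega, (hy c).1, by rw [e1 f (by omega)]; exact (hy c).2⟩
        · exact .inl (by simpa using c)
      · rw [e1 f (by omega), e1 f (by omega)]
        exact fun k => hx.ne (f1.injOn k1 k2 k)
      · rw [e2 f h1]
        refine f2 _ _ fun x hx => ?_
        obtain ⟨i, hi, rfl⟩ := List.getElem_of_mem hx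
        simpa [hi] using k i hi
  have hi : ∀ x y, x < y → A.dom x = true → A.dom y = true → g x ≠ g y := fun x y h k1 k2 => by
    obtain ⟨m, c1, -, -, c2, -⟩ := g2 y
    have : y < m := by simpa using c1
    simpa only [e1 g this, e1 g (h.trans this)] using c2 x h k1 k2
  refine ⟨g, ⟨⟨fun x hx => ?_, fun x hx y hy e => ?_, fun y hy => ?_⟩, fun i xs h => ?_⟩, g1⟩
  · obtain ⟨m, c1, c2, -⟩ := g2 x
    have : x < m := by simpa using c1
    simpa only [e1 g this, Set.mem_setOf_eq] using c2 hx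
  · rcases lt_trichotomy x y with c | c | c
    · exact (hi x y c hx hy e).elim
    · exact c
    · exact (hi y x c hy hx e.symm).elim
  · obtain ⟨m, -, -, c | ⟨x, c1, c2, c3⟩, -⟩ := g2 y
    · exact absurd (hy.symm.trans c) (by simp)
    · exact ⟨x, c2, by rwa [e1 g (by simpa using c1)] at c3⟩
  · obtain ⟨m, -, -, -, -, c1, c2⟩ := g2 (encode (i, xs))
    simp only [d2] at c1 c2
    rw [e2 g (by simpa using c1)] at c2
    exact c2 fun j hj => h _ (by simp [hj])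

theorem s2 {p : S → Prop} (h : RI (J O) p) : Sigma2 p := by
  obtain ⟨T, a, b⟩ := sig2 h
  obtain ⟨N, n1, n2, -, n3⟩ := re_bool (r_pw (ri_re a)).re
  have : Primrec fun z : S × ℕ × ℕ => cd (N (z.1, z.2.1) z.2.2 = false) := by fun_prop
  refine ⟨fun z => N (z.1, z.2.1) z.2.2 = false, (pred this).computablePred, fun σ => (b σ).trans
    (exists_congr fun m => ⟨fun k n => Bool.eq_false_iff.2 fun c => k (n2 _ _ c), fun k c => ?_⟩)⟩
  obtain ⟨t, ht⟩ := n3 _ c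
  simp [k t] at ht

theorem notBelow {Y : ℕ → Bool} (hY : WGen2 Y) : ¬ CI Y G := fun h => by
  obtain ⟨W, w1, w2, w3, w4⟩ := func h
  have w5 : RI (J O) W := (i_re (r_pw w1)).un
  have t1 := T_ci
  obtain ⟨a, a1, a2⟩ : ∃ a : ℕ × S → Bool, CI (J O) a ∧ ∀ z, a z = cd (∃ τ b, z.2 <+: τ ∧ W ((z.1, b), τ)) :=
    ⟨_, RE.jump (RE.un (RE.re (by fun_prop))), fun _ => rfl⟩
  obtain ⟨c, c1, c2⟩ : ∃ c : S → Bool, CI (J O) c ∧
      ∀ z, c z = cd (∃ n τ τ', z <+: τ ∧ z <+: τ' ∧ W ((n, true), τ) ∧ W ((n, false), τ')) :=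
    ⟨_, RE.jump (RE.un (RE.re (by fun_prop))), fun _ => rfl⟩
  obtain ⟨t, t2, t3⟩ : ∃ t : S → Bool, CI (J O) t ∧ ∀ z, t z = cd (T z) := ⟨_, t1, fun _ => rfl⟩
  have key := hY (fun σ => (∃ ρ : S, (∀ i < ρ.length, W ((i, ρ.getD i false), σ)) ∧ t ρ = false) ∨
    (∃ n, a (n, σ) = false) ∨ c σ = false ∨ ∃ n, W ((n, true), σ) ∧ W ((n, false), σ)) (s2 (RI.un (by fun_prop)))
  simp only [a2, c2, t3, ← Bool.not_eq_true, cd_true] at key
  obtain ⟨m, k⟩ := key fun σ => by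
    by_contra k
    push Not at k
    have k1 : ∀ (i : ℕ) (τ : S), ∃ τ', τ <+: τ' ∧ (σ <+: τ → (∃ b, W ((i, b), τ')) ∧ ∃ n, W ((n, !Zs i n), τ')) := by
      intro i τ
      by_cases e : σ <+: τ
      · obtain ⟨n, τ1, τ2, e1, e2, e3, e4⟩ := (k τ e).2.2.1
        obtain ⟨ρ, r1, r2⟩ : ∃ ρ, τ <+: ρ ∧ W ((n, !Zs i n), ρ) := by
          cases Zs i n
          exacts [⟨τ1, e1, e3⟩, ⟨τ2, e2, e4⟩]
        obtain ⟨τ', b, r3, r4⟩ := (k ρ (e.trans r1)).2.1 i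
        exact ⟨τ', r1.trans r3, fun _ => ⟨⟨b, r4⟩, n, w2 _ _ _ r3 r2⟩⟩
      · exact ⟨τ, List.prefix_rfl, fun e' => (e e').elim⟩
    choose f f1 f2 using k1
    obtain ⟨u, u0, u1⟩ : ∃ u : ℕ → S, u 0 = σ ∧ ∀ i, u (i + 1) = f i (u i) :=
      ⟨fun i => Nat.rec σ f i, rfl, fun _ => rfl⟩
    have u2 : ∀ {i j}, i ≤ j → u i <+: u j := chain fun i => u1 i ▸ f1 i _
    have u3 : ∀ i, σ <+: u i := fun i => u0 ▸ u2 (Nat.zero_le i)
    choose Z hZ using fun i => (f2 i _ (u3 i)).1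
    simp only [← u1] at hZ
    obtain ⟨i, rfl⟩ := T_count (Z := Z) fun s => (k (u s) (u3 s)).1 _ fun i hi => by
      rw [pre_len] at hi
      rw [pre_getD _ hi]
      exact w2 _ _ _ (u2 hi) (hZ i)
    obtain ⟨n, hn⟩ := (f2 i _ (u3 i)).2
    rw [← u1] at hn
    have v1 := w2 _ _ _ (u2 (by omega : i + 1 ≤ i + n + 1)) hn
    have v2 := w2 _ _ _ (u2 (by omega : n + 1 ≤ i + n + 1)) (hZ n)
    have v3 := (k _ (u3 (i + n + 1))).2.2.2 n
    cases e : Zs i n <;> simp only [e, Bool.not_true, Bool.not_false] at v1 v2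
    exacts [v3 v1 v2, v3 v2 v1]
  change (∃ ρ : S, (∀ i < ρ.length, W ((i, ρ.getD i false), pre Y m)) ∧ _) ∨ (∃ n, ¬ ∃ τ b, pre Y m <+: τ ∧ _) ∨
    (¬ ∃ n τ τ', pre Y m <+: τ ∧ pre Y m <+: τ' ∧ _) ∨ ∃ n, W (_, pre Y m) ∧ W (_, pre Y m) at k
  have w6 : ∀ n, ∃ τ, pre Y m <+: τ ∧ W ((n, G n), τ) := fun n =>
    let ⟨s, e1, e2⟩ := ((w4 n).and (eventually_ge_atTop m)).exists; ⟨_, pre_pre _ e2, e1⟩
  rcases k with ⟨ρ, k1, k2⟩ | ⟨n, k⟩ | k | ⟨n, k1, k2⟩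
  · refine k2 ((List.ext_getElem (pre_len _ _) fun i _ hi => ?_ : pre G ρ.length = ρ) ▸ T_G _)
    simpa [pre, hi] using w3 _ _ _ (k1 i hi)
  · exact k (let ⟨τ, e⟩ := w6 n; ⟨τ, _, e⟩)
  · have w7 : RI O W := (i_re (r_pw w1)).un
    refine G_nc (CI.mk (R := fun n b => ∃ τ, pre Y m <+: τ ∧ W ((n, b), τ)) (i_re (by fun_prop)) fun n b =>
      ⟨fun ⟨τ, e1, e2⟩ => ?_, fun e => e ▸ w6 n⟩)
    obtain ⟨τ', e3, e4⟩ := w6 n
    by_contra e
    cases b <;> cases e' : G n <;> simp only [e'] at e e4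
    exacts [e trivial, k ⟨n, τ', τ, e3, e1, e4, e2⟩, k ⟨n, τ, τ', e1, e3, e2, e4⟩, e trivial]
  · exact absurd ((w3 _ _ _ k1).symm.trans (w3 _ _ _ k2)) (by simp)

theorem result : ∃ G : ℕ → Bool, Gen1 G ∧ (∀ X, TuringEquivalent (chi G) (chi X) → ¬ WGen2 X) ∧ LowIso G ∧
    ∀ X, WGen2 X → ¬ TuringReducible (chi G) (chi X) :=
  ⟨G, gen, fun _ h k => notBelow k (CI.of_orc h.1), low, fun _ k h => notBelow k (CI.of_orc h)⟩

end Pool.Agent.Results.MP_81a968_lc.Yes
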